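import Mathlib

set_option autoImplicit false

open MeasureTheory Filter Topology
open scoped InnerProductSpace ENNReal

namespace Pool.Agent.Results.MP_916daf_an.Counterexample

section
variable {K : Type} [NormedAddCommGroup K] [InnerProductSpace ℂ K]

abbrev Sub (K : Type) [NormedAddCommGroup K] [InnerProductSpace ℂ K] : Type := Submodule ℂ K

abbrev Op (K : Type) [NormedAddCommGroup K] [InnerProductSpace ℂ K] : Type := K →L[ℂ] K

def Sesq (V : Sub K) (a : K → K → ℂ) : Prop :=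
  ∀ u ∈ V, ∀ v ∈ V, ∀ w ∈ V, ∀ c : ℂ,
    a (u + c • v) w = a u w + c * a v w ∧ a w (u + c • v) = a w u + star c * a w v

def Sectorial (V : Sub K) (a : K → K → ℂ) : Prop :=
  ∃ θ : ℝ, 0 ≤ θ ∧ θ < Real.pi / 2 ∧ ∀ u ∈ V, a u u = 0 ∨ |(a u u).arg| ≤ θ

noncomputable def anorm (a : K → K → ℂ) (u : K) : ℝ := √((a u u).re + ‖u‖ ^ 2)

def ClosedForm (V : Sub K) (a : K → K → ℂ) : Prop :=
  ∀ u : ℕ → K, (∀ n, u n ∈ V) → (∀ ε > 0, ∃ N, ∀ m ≥ N, ∀ n ≥ N, anorm a (u m - u n) < ε) →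
    ∃ v ∈ V, Tendsto (fun n => anorm a (u n - v)) atTop (𝓝 0)

def GoodForm (V : Sub K) (a : K → K → ℂ) : Prop :=
  Dense (V : Set K) ∧ Sesq V a ∧ Sectorial V a ∧ ClosedForm V a

def IsC0 (T : ℝ → Op K) : Prop :=
  (∀ x, T 0 x = x) ∧ (∀ s t, 0 ≤ s → 0 ≤ t → ∀ x, T (s + t) x = T s (T t x)) ∧
    ∀ x, ContinuousOn (fun t => T t x) (Set.Ici 0)

def FormSemigroup (V : Sub K) (a : K → K → ℂ) (T : ℝ → Op K) : Prop :=
  IsC0 T ∧ ∀ u h : K, (u ∈ V ∧ ∀ v ∈ V, a u v = ⟪v, h⟫_ℂ) ↔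
    Tendsto (fun t : ℝ => (t : ℂ)⁻¹ • (T t u - u)) (𝓝[>] 0) (𝓝 (-h))

def act (T : ℝ → Op K) (t : ℝ) (u : K) : K := T t u

end

section
variable {Ω : Type} [MeasurableSpace Ω] (μ : Measure Ω)

noncomputable abbrev L2 := Lp ℂ 2 μ

def LinfBounded (T : ℝ → L2 μ → L2 μ) : Prop :=
  ∃ M : ℝ, 1 ≤ M ∧ ∀ t, 0 ≤ t → ∀ f : L2 μ, MemLp f ⊤ μ →
    eLpNorm (T t f) ⊤ μ ≤ ENNReal.ofReal M * eLpNorm f ⊤ μ

def Admissible (g : Ω → ℝ) : Prop :=
  Measurable g ∧ MemLp g ⊤ μ ∧ (∀ᵐ x ∂μ, 0 < g x) ∧ MemLp (fun x => (g x)⁻¹) ⊤ μ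

def ContrFor (T : ℝ → L2 μ → L2 μ) (g : Ω → ℝ) : Prop :=
  ∀ t, 0 ≤ t → ∀ f : L2 μ, MemLp f ⊤ μ →
    eLpNorm (fun x => (g x : ℂ) * T t f x) ⊤ μ ≤ eLpNorm (fun x => (g x : ℂ) * f x) ⊤ μ

end

section
variable {K : Type} [NormedAddCommGroup K] [InnerProductSpace ℂ K]

noncomputable def c (t : ℝ) : ℝ := (1 - Real.exp (-3 * t)) / 3

noncomputable def TT (e : K) (t : ℝ) : Op K := 1 - (c t : ℂ) • (innerSL ℂ e).smulRight e

theorem TT_apply (e : K) (t : ℝ) (u : K) : TT e t u = u - ((c t : ℂ) * ⟪e, u⟫_ℂ) • e := by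
  rw [mul_smul]; rfl

theorem good [CompleteSpace K] (e : K) : GoodForm ⊤ fun u v => ⟪v, ⟪e, u⟫_ℂ • e⟫_ℂ := by
  have h : ∀ u, ⟪u, ⟪e, u⟫_ℂ • e⟫_ℂ = ((‖⟪e, u⟫_ℂ‖ ^ 2 : ℝ) : ℂ) := fun u => by
    rw [inner_smul_right, ← inner_conj_symm u e, Complex.mul_conj']; simp
  refine ⟨by simp, fun u _ v _ w _ z => ⟨?_, ?_⟩, ⟨0, le_rfl, by positivity, fun u _ => Or.inr ?_⟩,
    fun u _ hu => ?_⟩
  · simp [inner_add_right, inner_smul_right]; ring
  · simp [inner_add_left, inner_smul_left]; ring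
  · simp only [h]
    rw [Complex.arg_ofReal_of_nonneg (by positivity), abs_zero]
  · have hc : CauchySeq u := Metric.cauchySeq_iff.2 fun ε hε => by
      obtain ⟨N, hN⟩ := hu ε hε
      refine ⟨N, fun m hm n hn => lt_of_le_of_lt ?_ (hN m hm n hn)⟩
      rw [dist_eq_norm, anorm, h, Complex.ofReal_re]
      exact Real.le_sqrt_of_sq_le (le_add_of_nonneg_left (by positivity))
    obtain ⟨v, hv⟩ := cauchySeq_tendsto_of_complete hc
    refine ⟨v, trivial, ?_⟩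
    have : Continuous (anorm fun u v => ⟪v, ⟪e, u⟫_ℂ • e⟫_ℂ) := by unfold anorm; fun_prop
    have h2 := (this.tendsto 0).comp (tendsto_sub_nhds_zero_iff.2 hv)
    rw [show anorm (fun u v => ⟪v, ⟪e, u⟫_ℂ • e⟫_ℂ) 0 = 0 by simp [anorm]] at h2
    exact h2

theorem semi (e : K) (he : ⟪e, e⟫_ℂ = 3) :
    FormSemigroup ⊤ (fun u v => ⟪v, ⟪e, u⟫_ℂ • e⟫_ℂ) (TT e) := by
  refine ⟨⟨fun x => by simp [TT_apply, c], fun s t _ _ x => ?_, fun x => ?_⟩, fun u h => ?_⟩
  · have : c (s + t) = c s + c t - 3 * c s * c t := by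
      simp only [c, mul_add, Real.exp_add]; ring
    simp only [TT_apply, this, inner_sub_right, inner_smul_right, he]
    push_cast
    module
  · simp only [TT_apply, c]; fun_prop
  · have hd : HasDerivAt c 1 0 := by
      have := (((hasDerivAt_id (0 : ℝ)).const_mul (-3)).exp.const_sub 1).div_const 3
      exact this.congr_deriv (by simp)
    have h1 : Tendsto (fun t : ℝ => t⁻¹ * c t) (𝓝[>] 0) (𝓝 1) := by
      simpa [c] using hd.tendsto_slope_zero_right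
    have h2 : Tendsto (fun t : ℝ => (t : ℂ)⁻¹ • (TT e t u - u)) (𝓝[>] 0)
        (𝓝 (-(⟪e, u⟫_ℂ • e))) := by
      have := (((Complex.continuous_ofReal.tendsto 1).comp h1).smul_const (⟪e, u⟫_ℂ • e)).neg
      rw [Complex.ofReal_one, one_smul] at this
      refine this.congr fun t => ?_
      simp [TT_apply, smul_smul, mul_assoc]
    refine ⟨fun k => ?_, fun k => ⟨trivial, fun v _ => ?_⟩⟩
    · rwa [← ext_inner_left ℂ fun v => k.2 v trivial]
    · rw [← neg_injective (tendsto_nhds_unique h2 k)]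

end

noncomputable abbrev mu : Measure (Fin 3) := Measure.count

noncomputable def e0 : L2 mu := (memLp_const (1 : ℂ)).toLp _

theorem e0_apply (i : Fin 3) : e0 i = 1 := Measure.ae_count_iff.1 (MemLp.coeFn_toLp _) i

theorem inner_e0 (f : L2 mu) : ⟪e0, f⟫_ℂ = ∑ i, f i := by
  simp [MeasureTheory.L2.inner_def, e0_apply, integral_count]

theorem T_val (t : ℝ) (f : L2 mu) (i : Fin 3) : TT e0 t f i = f i - c t * ∑ j, f j := by
  rw [TT_apply, Measure.ae_count_iff.1 (Lp.coeFn_sub _ _) i, Pi.sub_apply,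
    Measure.ae_count_iff.1 (Lp.coeFn_smul _ _) i, Pi.smul_apply, e0_apply, inner_e0]
  simp

theorem result : ∃ (Ω : Type) (_ : MeasurableSpace Ω) (μ : Measure Ω) (_ : SigmaFinite μ)
    (V : Sub (L2 μ)) (a : L2 μ → L2 μ → ℂ) (T : ℝ → Op (L2 μ)),
    GoodForm V a ∧ FormSemigroup V a T ∧ LinfBounded μ (act T) ∧
      ∀ g, Admissible μ g → ¬ ContrFor μ (act T) g := by
  refine ⟨Fin 3, inferInstance, mu, inferInstance, ⊤, _, TT e0, good e0,
    semi e0 (by rw [inner_e0]; simp [e0_apply]), ⟨2, by norm_num, fun t ht f hf => ?_⟩,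
    fun g hg h => ?_⟩
  · have hN := hf.eLpNorm_ne_top
    have h1 : ∀ i, ‖f i‖ ≤ (eLpNorm f ⊤ mu).toReal := fun i => by
      rw [← ENNReal.ofReal_le_iff_le_toReal hN, ofReal_norm]
      exact Measure.ae_count_iff.1 ae_le_eLpNormEssSup i
    rw [← ENNReal.ofReal_toReal hN, ← ENNReal.ofReal_mul (by norm_num)]
    refine eLpNormEssSup_le_of_ae_bound (Eventually.of_forall fun i => ?_)
    have c0 : 0 ≤ c t := div_nonneg (sub_nonneg.2 (Real.exp_le_one_iff.2 (by linarith)))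
      (by norm_num)
    have c1 : c t ≤ 1 / 3 := by
      have := Real.exp_pos (-3 * t)
      rw [c]; linarith
    have h2 : ‖∑ j, f j‖ ≤ 3 * (eLpNorm f ⊤ mu).toReal := (norm_sum_le _ _).trans (by
      rw [Fin.sum_univ_three]; linarith [h1 0, h1 1, h1 2])
    rw [act, T_val]
    refine (norm_sub_le _ _).trans ?_
    rw [norm_mul, Complex.norm_real, Real.norm_of_nonneg c0]
    nlinarith [h1 i, norm_nonneg (∑ j, f j)]
  · have g0 := Measure.ae_count_iff.1 hg.2.2.1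
    have c0 : 0 < c 1 := div_pos (sub_pos.2 (Real.exp_lt_one_iff.2 (by linarith))) (by norm_num)
    have key : ∀ i, ∑ j, (if j = i then (g j)⁻¹ else -(g j)⁻¹) ≥ 0 := by
      intro i
      let F : Fin 3 → ℂ := fun j => ((if j = i then (g j)⁻¹ else -(g j)⁻¹ : ℝ) : ℂ)
      let f : L2 mu := (MemLp.of_discrete (f := F)).toLp _
      have hf : ∀ j, f j = F j := Measure.ae_count_iff.1 (MemLp.coeFn_toLp _)
      have h1 := (h 1 zero_le_one f MemLp.of_discrete).trans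
        (eLpNormEssSup_le_of_ae_bound (C := 1) (Eventually.of_forall fun j => by
          have := g0 j
          rw [hf, ← Complex.ofReal_mul, Complex.norm_real]
          split_ifs <;> simp [this.ne']))
      have h2 := (Measure.ae_count_iff.1 ae_le_eLpNormEssSup i).trans h1
      rw [← ofReal_norm, ENNReal.ofReal_le_ofReal_iff zero_le_one, act, T_val] at h2
      simp only [hf, F, ← Complex.ofReal_sum, ← Complex.ofReal_mul, ← Complex.ofReal_sub,
        Complex.norm_real, if_pos] at h2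
      have h3 := (le_abs_self _).trans h2
      rw [mul_sub, mul_inv_cancel₀ (g0 i).ne', sub_le_self_iff, ← mul_assoc] at h3
      exact nonneg_of_mul_nonneg_right h3 (mul_pos (g0 i) c0)
    have k0 := key 0
    have k1 := key 1
    have k2 := key 2
    simp [Fin.sum_univ_three] at k0 k1 k2
    have := inv_pos.2 (g0 0)
    have := inv_pos.2 (g0 1)
    have := inv_pos.2 (g0 2)
    linarith

end Pool.Agent.Results.MP_916daf_an.Counterexample
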